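import Mathlib

namespace Pool.Agent.Results.MP_864c98_co.RatioDense

open Finset Filter Topology

/-- The number `d(G)` of derangements on the digraph with arc relation `E`: bijections sending
every vertex along an arc. -/
noncomputable def numDer {V : Type*} (E : V → V → Prop) : ℕ :=
  Nat.card {σ : Equiv.Perm V // ∀ v, E v (σ v)}

/-- The number `p(G)` of permutations on the digraph with arc relation `E`: bijections sending
every vertex to itself or along an arc. -/
noncomputable def numPerm {V : Type*} (E : V → V → Prop) : ℕ :=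
  Nat.card {σ : Equiv.Perm V // ∀ v, σ v = v ∨ E v (σ v)}

section layered

variable {X : Type} [Fintype X] [DecidableEq X]

/-- number of bijections `S → T` compatible with `B` -/
noncomputable def mm (B : X → X → Prop) (S T : Finset X) : ℕ :=
  Nat.card {f : S ≃ T // ∀ x : S, B x (f x)}

lemma mm_congr {B B' : X → X → Prop} (h : ∀ x y, B x y ↔ B' x y) (S T : Finset X) :
    mm B S T = mm B' S T := by
  have : B = B' := by
    funext x y
    exact propext (h x y)
  rw [this]

lemma mm_true (S T : Finset X) :
    mm (fun _ _ => True) S T = if S.card = T.card then (S.card).factorial else 0 := by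
  classical
  unfold mm
  have h1 : Nat.card {f : S ≃ T // ∀ x : S, True} = Nat.card (S ≃ T) :=
    Nat.card_congr (Equiv.subtypeUnivEquiv (fun _ _ => trivial))
  rw [h1]
  split_ifs with h
  · have e : S ≃ T := Fintype.equivOfCardEq (by simpa using h)
    rw [Nat.card_eq_fintype_card, Fintype.card_equiv e]
    simp
  · have : IsEmpty (S ≃ T) := ⟨fun e => h (by simpa using Fintype.card_congr e)⟩
    exact Nat.card_of_isEmpty

/-- the layered digraph -/
def layer (n : ℕ) (M : Fin (n + 1) → X → X → Prop) (u v : Fin (n + 1) × X) : Prop :=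
  v.1 = u.1 + 1 ∧ M u.1 u.2 v.2

/-- the function associated with a family of partial bijections -/
noncomputable def toPermFun {n : ℕ} (S : Fin (n + 1) → Finset X)
    (f : ∀ j, S j ≃ S (j + 1)) (u : Fin (n + 1) × X) : Fin (n + 1) × X :=
  if h : u.2 ∈ S u.1 then (u.1 + 1, (f u.1 ⟨u.2, h⟩ : X)) else u

lemma toPermFun_inj {n : ℕ} (S : Fin (n + 1) → Finset X)
    (f : ∀ j, S j ≃ S (j + 1)) : Function.Injective (toPermFun S f) := by
  rintro ⟨i, x⟩ ⟨j, y⟩ h
  unfold toPermFun at h
  simp only at h
  split_ifs at h with h1 h2 h2
  · have hij : i = j := by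
      have := congrArg Prod.fst h
      simpa using this
    subst hij
    have h3 := congrArg Prod.snd h
    simp only at h3
    have h4 := (f i).injective (Subtype.ext h3)
    have h5 : x = y := congrArg Subtype.val h4
    rw [h5]
  · exfalso
    have h3 : i + 1 = j := congrArg Prod.fst h
    have h4 : ((f i ⟨x, h1⟩ : S (i + 1)) : X) = y := congrArg Prod.snd h
    subst h3
    exact h2 (h4 ▸ (f i ⟨x, h1⟩).2)
  · exfalso
    have h3 : i = j + 1 := congrArg Prod.fst h
    have h4 : x = ((f j ⟨y, h2⟩ : S (j + 1)) : X) := congrArg Prod.snd h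
    subst h3
    exact h1 (h4 ▸ (f j ⟨y, h2⟩).2)
  · exact h

/-- fibre count -/
lemma fibre_card {n : ℕ} (hn : 1 ≤ n) (M : Fin (n + 1) → X → X → Prop)
    (S : Fin (n + 1) → Finset X) :
    Nat.card {σ : Equiv.Perm (Fin (n + 1) × X) //
      (∀ v, σ v = v ∨ layer n M v (σ v)) ∧ ∀ v, σ v ≠ v ↔ v.2 ∈ S v.1} =
      ∏ j, mm (M j) (S j) (S (j + 1)) := by
  classical
  have hne : ∀ j : Fin (n + 1), j + 1 ≠ j := by
    intro j h
    have h1 : (1 : Fin (n + 1)) = 0 := by
      have := congrArg (fun z => z - j) h
      simpa using this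
    have h2 : ((1 : Fin (n + 1)) : ℕ) = 0 := by rw [h1]; rfl
    rw [Fin.val_one'] at h2
    rw [Nat.mod_eq_of_lt (by omega)] at h2
    omega
  unfold mm
  rw [← Nat.card_pi]
  symm
  have hF : ∀ g : (∀ j, {f : S j ≃ S (j + 1) // ∀ x : S j, M j x (f x)}),
      (∀ v, (Equiv.ofBijective _ (Finite.injective_iff_bijective.mp
          (toPermFun_inj S (fun j => (g j).1)))) v = v ∨
        layer n M v ((Equiv.ofBijective _ (Finite.injective_iff_bijective.mp
          (toPermFun_inj S (fun j => (g j).1)))) v)) ∧
      ∀ v, (Equiv.ofBijective _ (Finite.injective_iff_bijective.mp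
          (toPermFun_inj S (fun j => (g j).1)))) v ≠ v ↔ v.2 ∈ S v.1 := by
    intro g
    constructor
    · rintro ⟨j, x⟩
      simp only [Equiv.ofBijective_apply, toPermFun]
      split_ifs with h
      · right
        exact ⟨rfl, (g j).2 ⟨x, h⟩⟩
      · left; rfl
    · rintro ⟨j, x⟩
      simp only [Equiv.ofBijective_apply, toPermFun]
      split_ifs with h
      · simp only [ne_eq, h, iff_true]
        intro h2
        exact hne j (congrArg Prod.fst h2)
      · simp [h]
  refine Nat.card_congr (Equiv.ofBijective (fun g => ⟨_, hF g⟩) ⟨?_, ?_⟩)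
  · intro g g' h
    funext j
    apply Subtype.ext
    apply Equiv.ext
    intro x
    apply Subtype.ext
    have h1 := congrArg Subtype.val h
    have h2 := congrArg (fun σ : Equiv.Perm (Fin (n + 1) × X) => (σ (j, (x : X))).2) h1
    simpa [toPermFun] using h2
  · rintro ⟨σ, h1, h2⟩
    have hmove : ∀ j (x : S j), σ (j, (x : X)) = (j + 1, (σ (j, (x : X))).2) := by
      intro j x
      have h3 := (h2 (j, (x : X))).mpr x.2
      rcases h1 (j, (x : X)) with h4 | h4
      · exact absurd h4 h3
      · exact Prod.ext h4.1 rfl
    have hmem : ∀ j (x : S j), (σ (j, (x : X))).2 ∈ S (j + 1) := by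
      intro j x
      have h3 := (h2 (j, (x : X))).mpr x.2
      have h4 := (h2 (σ (j, (x : X)))).mp (fun h => h3 (σ.injective h))
      have h5 : (σ (j, (x : X))).1 = j + 1 := congrArg Prod.fst (hmove j x)
      rwa [h5] at h4
    have hbij : ∀ j, Function.Bijective
        (fun x : S j => (⟨(σ (j, (x : X))).2, hmem j x⟩ : S (j + 1))) := by
      intro j
      constructor
      · intro x y h
        have h3 : (σ (j, (x : X))).2 = (σ (j, (y : X))).2 := congrArg Subtype.val h
        have h4 : σ (j, (x : X)) = σ (j, (y : X)) := by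
          rw [hmove j x, hmove j y, h3]
        exact Subtype.ext (congrArg Prod.snd (σ.injective h4))
      · rintro ⟨y, hy⟩
        obtain ⟨⟨i, x⟩, hx⟩ := σ.surjective (j + 1, y)
        have h3 : σ (i, x) ≠ (i, x) := by
          intro h
          rw [h] at hx
          have h4 := (h2 (j + 1, y)).mpr hy
          rw [← hx] at h4
          exact h4 h
        have hxS := (h2 (i, x)).mp h3
        have hl : layer n M (i, x) (σ (i, x)) := by
          rcases h1 (i, x) with h4 | h4
          · exact absurd h4 h3
          · exact h4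
        have hij : i = j := by
          have := hl.1
          rw [hx] at this
          simpa using this.symm
        subst hij
        refine ⟨⟨x, hxS⟩, ?_⟩
        apply Subtype.ext
        simp only
        rw [hx]
    have hM : ∀ j (x : S j), M j x ((Equiv.ofBijective _ (hbij j)) x) := by
      intro j x
      have h3 := (h2 (j, (x : X))).mpr x.2
      rcases h1 (j, (x : X)) with h4 | h4
      · exact absurd h4 h3
      · exact h4.2
    refine ⟨fun j => ⟨Equiv.ofBijective _ (hbij j), hM j⟩, ?_⟩
    apply Subtype.ext
    apply Equiv.ext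
    rintro ⟨j, x⟩
    simp only [Equiv.ofBijective_apply, toPermFun]
    split_ifs with h
    · exact (hmove j ⟨x, h⟩).symm
    · by_contra h3
      exact h ((h2 (j, x)).mp (fun h4 => h3 h4.symm))

lemma numPerm_layer {n : ℕ} (hn : 1 ≤ n) (M : Fin (n + 1) → X → X → Prop) :
    numPerm (layer n M) = ∑ S : Fin (n + 1) → Finset X, ∏ j, mm (M j) (S j) (S (j + 1)) := by
  classical
  rw [← Finset.sum_congr rfl (fun S _ => fibre_card hn M S)]
  unfold numPerm
  rw [← Nat.card_sigma]
  symm
  refine Nat.card_congr (Equiv.ofBijective
    (fun z : (Σ S : Fin (n + 1) → Finset X, {σ : Equiv.Perm (Fin (n + 1) × X) //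
      (∀ v, σ v = v ∨ layer n M v (σ v)) ∧ ∀ v, σ v ≠ v ↔ v.2 ∈ S v.1}) =>
      (⟨z.2.1, z.2.2.1⟩ : {σ : Equiv.Perm (Fin (n + 1) × X) //
        ∀ v, σ v = v ∨ layer n M v (σ v)})) ⟨?_, ?_⟩)
  · rintro ⟨S, σ, h1, h2⟩ ⟨S', σ', h1', h2'⟩ h
    have h3 : σ = σ' := congrArg Subtype.val h
    subst h3
    have h4 : S = S' := by
      funext j
      ext x
      rw [← h2 (j, x), ← h2' (j, x)]
    subst h4
    rfl
  · rintro ⟨σ, h1⟩
    refine ⟨⟨fun j => Finset.univ.filter (fun x => σ (j, x) ≠ (j, x)), σ, h1, ?_⟩, rfl⟩
    rintro ⟨j, x⟩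
    simp

lemma numDer_layer {n : ℕ} (hn : 1 ≤ n) (M : Fin (n + 1) → X → X → Prop) :
    numDer (layer n M) = ∏ j, mm (M j) Finset.univ Finset.univ := by
  classical
  rw [← fibre_card hn M (fun _ => Finset.univ)]
  unfold numDer
  have hne : ∀ j : Fin (n + 1), j + 1 ≠ j := by
    intro j h
    have h1 : (1 : Fin (n + 1)) = 0 := by
      have := congrArg (fun z => z - j) h
      simpa using this
    have h2 : ((1 : Fin (n + 1)) : ℕ) = 0 := by rw [h1]; rfl
    rw [Fin.val_one'] at h2
    rw [Nat.mod_eq_of_lt (by omega)] at h2
    omega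
  refine Nat.card_congr (Equiv.subtypeEquivRight ?_)
  intro σ
  constructor
  · intro h
    refine ⟨fun v => Or.inr (h v), fun v => ?_⟩
    simp only [ne_eq, Finset.mem_univ, iff_true]
    intro h2
    have h3 := (h v).1
    rw [h2] at h3
    exact hne _ h3.symm
  · rintro ⟨h1, h2⟩ v
    rcases h1 v with h | h
    · exact absurd h ((h2 v).mpr (Finset.mem_univ _))
    · exact h

/-- the weight of a complete layer -/
def w (S T : Finset X) : ℕ := if S.card = T.card then (S.card).factorial else 0

lemma chain (L : ℕ) (g : Finset X → Finset X → ℕ) :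
    ∑ S : Fin (L + 2) → Finset X,
      (∏ j : Fin (L + 1), w (S j.castSucc) (S j.succ)) * g (S 0) (S (Fin.last (L + 1))) =
    ∑ a : Finset X, ∑ b : Finset X, if a.card = b.card then
      (a.card).factorial ^ (L + 1) * ((Fintype.card X).choose a.card) ^ L * g a b else 0 := by
  classical
  induction L generalizing g with
  | zero =>
    rw [← (Fin.consEquiv (fun _ : Fin 2 => Finset X)).sum_comp]
    rw [Fintype.sum_prod_type]
    refine Finset.sum_congr rfl fun a _ => ?_
    rw [← (Equiv.funUnique (Fin 1) (Finset X)).symm.sum_comp]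
    refine Finset.sum_congr rfl fun b _ => ?_
    simp [Fin.consEquiv, w]
  | succ L ih =>
    rw [← (Fin.consEquiv (fun _ : Fin (L + 3) => Finset X)).sum_comp]
    rw [Fintype.sum_prod_type_right]
    have key : ∀ S : Fin (L + 2) → Finset X,
        ∑ a : Finset X,
          (∏ j : Fin (L + 1 + 1),
            w ((Fin.consEquiv (fun _ : Fin (L + 3) => Finset X)) (a, S) j.castSucc)
              ((Fin.consEquiv (fun _ : Fin (L + 3) => Finset X)) (a, S) j.succ)) *
            g ((Fin.consEquiv (fun _ : Fin (L + 3) => Finset X)) (a, S) 0)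
              ((Fin.consEquiv (fun _ : Fin (L + 3) => Finset X)) (a, S)
                (Fin.last (L + 1 + 1))) =
        (∏ j : Fin (L + 1), w (S j.castSucc) (S j.succ)) *
          (fun c b => ∑ a : Finset X, w a c * g a b) (S 0) (S (Fin.last (L + 1))) := by
      intro S
      simp only [Finset.mul_sum]
      refine Finset.sum_congr rfl fun a _ => ?_
      rw [Fin.prod_univ_succ]
      have h0 : (Fin.consEquiv (fun _ : Fin (L + 3) => Finset X)) (a, S) 0 = a := rfl
      have hs : ∀ j : Fin (L + 2),
          (Fin.consEquiv (fun _ : Fin (L + 3) => Finset X)) (a, S) j.succ = S j := fun _ => rfl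
      have hl : (Fin.consEquiv (fun _ : Fin (L + 3) => Finset X)) (a, S)
          (Fin.last (L + 1 + 1)) = S (Fin.last (L + 1)) := rfl
      have hc : ∀ j : Fin (L + 1),
          (Fin.consEquiv (fun _ : Fin (L + 3) => Finset X)) (a, S) j.succ.castSucc =
            S j.castSucc := fun _ => rfl
      have h00 : (Fin.consEquiv (fun _ : Fin (L + 3) => Finset X)) (a, S)
          (0 : Fin (L + 2)).castSucc = a := rfl
      simp only [h0, hs, hl, hc, h00]
      ring
    refine (Finset.sum_congr rfl fun S _ => key S).trans ?_
    refine (ih (fun c b => ∑ a, w a c * g a b)).trans ?_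
    have step : ∀ b : Finset X, ∑ c : Finset X,
        (if c.card = b.card then (c.card).factorial ^ (L + 1) *
          ((Fintype.card X).choose c.card) ^ L * ∑ a : Finset X, w a c * g a b else 0) =
        ∑ a : Finset X, if a.card = b.card then
          (a.card).factorial ^ (L + 2) * ((Fintype.card X).choose a.card) ^ (L + 1) * g a b
          else 0 := by
      intro b
      have e1 : ∀ c : Finset X,
          (if c.card = b.card then (c.card).factorial ^ (L + 1) *
            ((Fintype.card X).choose c.card) ^ L * ∑ a : Finset X, w a c * g a b else 0) =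
          ∑ a : Finset X, (if c.card = b.card then (if a.card = b.card then
            (b.card).factorial ^ (L + 2) * ((Fintype.card X).choose b.card) ^ L * g a b
            else 0) else 0) := by
        intro c
        split_ifs with h
        · rw [Finset.mul_sum]
          refine Finset.sum_congr rfl fun a _ => ?_
          unfold w
          rw [h]
          split_ifs with h2
          · rw [h2]; ring
          · ring
        · simp
      rw [Finset.sum_congr rfl fun c _ => e1 c, Finset.sum_comm]
      refine Finset.sum_congr rfl fun a _ => ?_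
      rw [← Finset.sum_filter, Finset.sum_const]
      have e2 : (Finset.univ.filter (fun c : Finset X => c.card = b.card)).card =
          (Fintype.card X).choose b.card := by
        have : Finset.univ.filter (fun c : Finset X => c.card = b.card) =
            (Finset.univ : Finset X).powersetCard b.card := by
          ext c
          simp [Finset.mem_powersetCard]
        rw [this, Finset.card_powersetCard]
        rfl
      rw [e2]
      split_ifs with h
      · rw [h, smul_eq_mul]; ring
      · simp
    rw [Finset.sum_comm]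
    rw [Finset.sum_congr rfl fun b _ => step b]
    rw [Finset.sum_comm]

/-- the layers: complete except the last one, which carries `B` -/
def lay (n : ℕ) (B : X → X → Prop) (j : Fin (n + 1)) (x y : X) : Prop :=
  j = Fin.last n → B x y

lemma mm_lay_castSucc {n : ℕ} (B : X → X → Prop) (j : Fin n) (S T : Finset X) :
    mm (lay n B j.castSucc) S T = w S T := by
  unfold w
  rw [← mm_true]
  apply mm_congr
  intro x y
  simp only [lay, iff_true]
  intro h
  exact absurd h (Fin.castSucc_lt_last j).ne

lemma mm_lay_last {n : ℕ} (B : X → X → Prop) (S T : Finset X) :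
    mm (lay n B (Fin.last n)) S T = mm B S T := by
  apply mm_congr
  intro x y
  simp [lay]

lemma numPerm_lay (L : ℕ) (B : X → X → Prop) :
    numPerm (layer (L + 1) (lay (L + 1) B)) =
      ∑ a : Finset X, ∑ b : Finset X, if a.card = b.card then
      (a.card).factorial ^ (L + 1) * ((Fintype.card X).choose a.card) ^ L * mm B b a else 0 := by
  rw [numPerm_layer (by omega), ← chain L (fun a b => mm B b a)]
  refine Finset.sum_congr rfl fun S _ => ?_
  rw [Fin.prod_univ_castSucc]
  congr 1
  · refine Finset.prod_congr rfl fun j _ => ?_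
    rw [mm_lay_castSucc, Fin.coeSucc_eq_succ]
  · rw [mm_lay_last, Fin.last_add_one]

lemma numDer_lay (L : ℕ) (B : X → X → Prop) :
    numDer (layer (L + 1) (lay (L + 1) B)) =
      (Fintype.card X).factorial ^ (L + 1) * mm B Finset.univ Finset.univ := by
  rw [numDer_layer (by omega), Fin.prod_univ_castSucc]
  congr 1
  · rw [Finset.prod_congr rfl (fun j _ => mm_lay_castSucc B j _ _)]
    simp [w]
  · rw [mm_lay_last]

/-- the limit of `p/d` -/
lemma tendsto_ratio (B : X → X → Prop) (hB : mm B Finset.univ Finset.univ = 1) :
    Tendsto (fun L : ℕ => (numPerm (layer (L + 1) (lay (L + 1) B)) : ℝ) /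
      numDer (layer (L + 1) (lay (L + 1) B))) atTop
      (𝓝 (∑ a : Finset X, ∑ b : Finset X, if a.card = b.card ∧ Fintype.card X ≤ a.card + 1 then
        (mm B b a : ℝ) / (Fintype.card X).choose a.card else 0)) := by
  have hform : ∀ L : ℕ, (numPerm (layer (L + 1) (lay (L + 1) B)) : ℝ) /
      numDer (layer (L + 1) (lay (L + 1) B)) =
      ∑ a : Finset X, ∑ b : Finset X, if a.card = b.card then
        (1 / ((Fintype.card X - a.card).factorial : ℝ)) ^ (L + 1) *
          ((mm B b a : ℝ) / (Fintype.card X).choose a.card) else 0 := by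
    intro L
    rw [numPerm_lay, numDer_lay, hB]
    push_cast
    rw [mul_one, Finset.sum_div]
    refine Finset.sum_congr rfl fun a _ => ?_
    rw [Finset.sum_div]
    refine Finset.sum_congr rfl fun b _ => ?_
    split_ifs with h
    · have hle : a.card ≤ Fintype.card X := Finset.card_le_univ a
      have h1 : ((Fintype.card X).choose a.card : ℝ) * (a.card).factorial *
          (Fintype.card X - a.card).factorial = (Fintype.card X).factorial := by
        exact_mod_cast Nat.choose_mul_factorial_mul_factorial hle
      have h2 : ((Fintype.card X).choose a.card : ℝ) ≠ 0 := by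
        have := Nat.choose_pos hle
        positivity
      have h3 : ((a.card).factorial : ℝ) ≠ 0 := by positivity
      have h4 : ((Fintype.card X - a.card).factorial : ℝ) ≠ 0 := by positivity
      rw [← h1]
      rw [one_div, inv_pow, mul_pow, mul_pow]
      field_simp
      ring
    · simp
  simp only [hform]
  refine tendsto_finsetSum _ fun a _ => tendsto_finsetSum _ fun b _ => ?_
  by_cases h : a.card = b.card
  · simp only [h, if_true, true_and]
    have hle : b.card ≤ Fintype.card X := Finset.card_le_univ b
    split_ifs with h2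
    · have h3 : (Fintype.card X - b.card).factorial = 1 := by
        have : Fintype.card X - b.card = 0 ∨ Fintype.card X - b.card = 1 := by omega
        rcases this with h | h <;> simp [h]
      rw [h3]
      simp only [Nat.cast_one, div_one, one_pow, one_mul]
      exact tendsto_const_nhds
    · have h3 : 2 ≤ (Fintype.card X - b.card).factorial :=
        le_trans (by norm_num [Nat.factorial]) (Nat.factorial_le (show 2 ≤ Fintype.card X - b.card by omega))
      have h4 : (1 / ((Fintype.card X - b.card).factorial : ℝ)) < 1 := by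
        rw [div_lt_one (by positivity)]
        exact_mod_cast lt_of_lt_of_le one_lt_two h3
      have h5 := (tendsto_pow_atTop_nhds_zero_of_lt_one (by positivity) h4).comp
        (tendsto_add_atTop_nat 1)
      have h6 := h5.mul_const ((mm B b a : ℝ) / (Fintype.card X).choose b.card)
      simpa using h6
  · simp [h]

/-- the matrix of the last layer: identity plus arcs `N` with no directed path of length two -/
def withId (N : X → X → Prop) (x y : X) : Prop := x = y ∨ N x y

lemma mm_withId_univ (N : X → X → Prop) (h1 : ∀ x, ¬ N x x) (h2 : ∀ x y z, N x y → ¬ N y z) :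
    mm (withId N) Finset.univ Finset.univ = 1 := by
  classical
  unfold mm
  rw [Nat.card_eq_one_iff_unique]
  constructor
  · constructor
    have key : ∀ f : {f : ((Finset.univ : Finset X) ≃ (Finset.univ : Finset X)) //
        ∀ x : (Finset.univ : Finset X), withId N x (f x)},
        ∀ x : (Finset.univ : Finset X), f.1 x = x := by
      rintro ⟨f, hf⟩ x
      simp only
      rcases hf x with h | h
      · exact Subtype.ext h.symm
      · exfalso
        rcases hf (f x) with h' | h'
        · have h3 := f.injective (Subtype.ext h')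
          have h4 : (x : X) = f x := congrArg Subtype.val h3
          rw [← h4] at h
          exact h1 _ h
        · exact h2 _ _ _ h h'
    intro f g
    apply Subtype.ext
    apply Equiv.ext
    intro x
    rw [key f x, key g x]
  · exact ⟨⟨Equiv.refl _, fun x => Or.inl rfl⟩⟩

lemma mm_withId_compl (N : X → X → Prop) (h1 : ∀ x, ¬ N x x) (h2 : ∀ x y z, N x y → ¬ N y z)
    (p q : X) [Decidable (N p q)] :
    mm (withId N) {q}ᶜ {p}ᶜ = if p = q then 1 else if N p q then 1 else 0 := by
  classical
  unfold mm
  -- uniqueness
  have key : ∀ f : {f : (({q}ᶜ : Finset X) ≃ ({p}ᶜ : Finset X)) //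
      ∀ x : ({q}ᶜ : Finset X), withId N x (f x)}, ∀ x : ({q}ᶜ : Finset X),
      (((f.1 x : ({p}ᶜ : Finset X)) : X) = x) ∨ (((f.1 x : ({p}ᶜ : Finset X)) : X) = q ∧
        N x q ∧ (x : X) = p) := by
    rintro ⟨f, hf⟩ x
    simp only
    have key2 : ∀ x : ({q}ᶜ : Finset X), N x (f x) → ((f x : ({p}ᶜ : Finset X)) : X) = q := by
      intro x h
      by_contra hq
      have hmem : ((f x : ({p}ᶜ : Finset X)) : X) ∈ ({q}ᶜ : Finset X) := by simpa using hq
      rcases hf ⟨_, hmem⟩ with h' | h'
      · have h3 := f.injective (Subtype.ext h')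
        have h4 : (x : X) = (f x : ({p}ᶜ : Finset X)) := congrArg Subtype.val h3
        rw [← h4] at h
        exact h1 _ h
      · exact h2 _ _ _ h h'
    rcases hf x with h | h
    · exact Or.inl h.symm
    · right
      have hq := key2 x h
      have hNxq : N x q := by
        have h0 := h
        simp only [hq] at h0
        exact h0
      refine ⟨hq, hNxq, ?_⟩
      by_contra hx
      -- `x ≠ p`, so `x` is hit
      have hmem : (x : X) ∈ ({p}ᶜ : Finset X) := by simpa using hx
      obtain ⟨y, hy⟩ := f.surjective ⟨x, hmem⟩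
      have hy' : ((f y : ({p}ᶜ : Finset X)) : X) = x := congrArg Subtype.val hy
      rcases hf y with h' | h'
      · have h3 : y = x := Subtype.ext (h'.trans hy')
        rw [h3] at hy'
        rw [hy'] at h
        exact h1 _ h
      · rw [hy'] at h'
        exact h2 _ _ _ h' h
  split_ifs with hpq hN
  · subst hpq
    rw [Nat.card_eq_one_iff_unique]
    constructor
    · constructor
      intro f g
      apply Subtype.ext
      apply Equiv.ext
      intro x
      apply Subtype.ext
      have hx : (x : X) ≠ p := by
        intro h0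
        have h3 := x.2
        rw [h0] at h3
        simp at h3
      rcases key f x with h | h
      · rcases key g x with h' | h'
        · rw [h, h']
        · exact absurd h'.2.2 hx
      · exact absurd h.2.2 hx
    · exact ⟨⟨Equiv.refl _, fun x => Or.inl rfl⟩⟩
  · rw [Nat.card_eq_one_iff_unique]
    constructor
    · constructor
      intro f g
      apply Subtype.ext
      apply Equiv.ext
      intro x
      apply Subtype.ext
      have hfp : ∀ f : {f : (({q}ᶜ : Finset X) ≃ ({p}ᶜ : Finset X)) //
          ∀ x : ({q}ᶜ : Finset X), withId N x (f x)}, ∀ x : ({q}ᶜ : Finset X), (x : X) = p →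
          ((f.1 x : ({p}ᶜ : Finset X)) : X) = q := by
        intro f x hx
        rcases key f x with h | h
        · exfalso
          have h3 := (f.1 x).2
          rw [h, hx] at h3
          simp at h3
        · exact h.1
      by_cases hx : (x : X) = p
      · rw [hfp f x hx, hfp g x hx]
      · rcases key f x with h | h
        · rcases key g x with h' | h'
          · rw [h, h']
          · exact absurd h'.2.2 hx
        · exact absurd h.2.2 hx
    · -- the swap restricted
      have hsw : ∀ x, x ∈ ({q}ᶜ : Finset X) ↔ Equiv.swap p q x ∈ ({p}ᶜ : Finset X) := by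
        intro x
        simp only [Finset.mem_compl, Finset.mem_singleton]
        rw [not_iff_not]
        constructor
        · rintro rfl; simp
        · intro h
          have := congrArg (Equiv.swap p q) h
          simpa using this
      refine ⟨⟨(Equiv.swap p q).subtypeEquiv hsw, ?_⟩⟩
      intro x
      simp only [Equiv.subtypeEquiv_apply]
      have hxq : (x : X) ≠ q := by
        intro h0
        have h3 := x.2
        rw [h0] at h3
        simp at h3
      by_cases hx : (x : X) = p
      · right
        rw [hx, Equiv.swap_apply_left]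
        exact hN
      · left
        rw [Equiv.swap_apply_of_ne_of_ne hx hxq]
  · have : IsEmpty {f : (({q}ᶜ : Finset X) ≃ ({p}ᶜ : Finset X)) //
      ∀ x : ({q}ᶜ : Finset X), withId N x (f x)} := by
      constructor
      intro f
      have hp : p ∈ ({q}ᶜ : Finset X) := by simpa using hpq
      rcases key f ⟨p, hp⟩ with h | h
      · have h3 := (f.1 ⟨p, hp⟩).2
        rw [h] at h3
        simp at h3
      · exact hN h.2.1
    exact Nat.card_of_isEmpty

lemma limit_value [Nonempty X] (N : X → X → Prop) [∀ p q, Decidable (N p q)] (h1 : ∀ x, ¬ N x x)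
    (h2 : ∀ x y z, N x y → ¬ N y z) :
    (∑ a : Finset X, ∑ b : Finset X, if a.card = b.card ∧ Fintype.card X ≤ a.card + 1 then
        (mm (withId N) b a : ℝ) / (Fintype.card X).choose a.card else 0) =
      2 + (∑ p : X, ∑ q : X, if N p q then (1 : ℝ) else 0) / Fintype.card X := by
  set K := Fintype.card X with hK
  have hKpos : 0 < K := Fintype.card_pos
  -- split the subsets into the full one and the complements of points
  have hsub : ∀ F : Finset X → ℝ, (∀ a : Finset X, a.card + 1 < K → F a = 0) →
      ∑ a : Finset X, F a = F Finset.univ + ∑ p : X, F {p}ᶜ := by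
    intro F hF
    have hinj : Function.Injective (fun p : X => ({p}ᶜ : Finset X)) := by
      intro p q h
      have := congrArg (fun s : Finset X => sᶜ) h
      simpa using this
    have hnot : (Finset.univ : Finset X) ∉ Finset.univ.image (fun p : X => ({p}ᶜ : Finset X)) := by
      intro h
      obtain ⟨p, _, hp⟩ := Finset.mem_image.mp h
      have : p ∈ ({p}ᶜ : Finset X) := by rw [hp]; exact Finset.mem_univ _
      simp at this
    have h3 : ∑ a ∈ insert (Finset.univ : Finset X)
        (Finset.univ.image (fun p : X => ({p}ᶜ : Finset X))), F a = ∑ a : Finset X, F a := by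
      apply Finset.sum_subset (Finset.subset_univ _)
      intro a _ ha
      apply hF
      by_contra hcon
      push Not at hcon
      apply ha
      have hle : a.card ≤ K := Finset.card_le_univ a
      rcases Nat.lt_or_ge a.card K with hlt | hge
      · have hc : (aᶜ).card = 1 := by
          rw [Finset.card_compl]
          omega
        obtain ⟨p, hp⟩ := Finset.card_eq_one.mp hc
        apply Finset.mem_insert_of_mem
        rw [Finset.mem_image]
        exact ⟨p, Finset.mem_univ _, by rw [← hp, compl_compl]⟩
      · have : a = Finset.univ := (Finset.card_eq_iff_eq_univ a).mp (le_antisymm hle hge)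
        rw [this]
        exact Finset.mem_insert_self _ _
    rw [← h3, Finset.sum_insert hnot, Finset.sum_image (fun x _ y _ h => hinj h)]
  rw [hsub]
  · have hcu : (Finset.univ : Finset X).card = K := Finset.card_univ
    have hcc : ∀ p : X, ({p}ᶜ : Finset X).card = K - 1 := by
      intro p
      rw [Finset.card_compl, Finset.card_singleton]
    have e1 : ∑ b : Finset X, (if (Finset.univ : Finset X).card = b.card ∧
        K ≤ (Finset.univ : Finset X).card + 1 then
        (mm (withId N) b Finset.univ : ℝ) / K.choose (Finset.univ : Finset X).card else 0) = 1 := by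
      rw [hsub]
      · rw [hcu, mm_withId_univ N h1 h2]
        simp only [hcc]
        have : ¬ (K = K - 1) := by omega
        simp [this]
      · intro a ha
        rw [if_neg]
        rintro ⟨h3, _⟩
        omega
    have e2 : ∀ p : X, ∑ b : Finset X, (if ({p}ᶜ : Finset X).card = b.card ∧
        K ≤ ({p}ᶜ : Finset X).card + 1 then
        (mm (withId N) b {p}ᶜ : ℝ) / K.choose ({p}ᶜ : Finset X).card else 0) =
        (1 + ∑ q : X, if N p q then (1 : ℝ) else 0) / K := by
      intro p
      rw [hsub]
      · simp only [hcc, hcu]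
        have h3 : ¬ (K - 1 = K) := by omega
        have h4 : K ≤ K - 1 + 1 := by omega
        have h5 : K.choose (K - 1) = K := by
          rw [Nat.choose_symm_of_eq_add (show K = (K - 1) + 1 by omega), Nat.choose_one_right]
        simp only [h3, false_and, if_false, h4, and_true, true_and, if_true, zero_add, h5]
        rw [← Finset.sum_div]
        congr 1
        have h6 : ∀ q : X, (mm (withId N) {q}ᶜ {p}ᶜ : ℝ) =
            (if p = q then 1 else 0) + (if N p q then 1 else 0) := by
          intro q
          rw [mm_withId_compl N h1 h2 p q]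
          split_ifs with h7 h8 h8
          · rw [h7] at h8
            exact absurd h8 (h1 q)
          · simp
          · simp
          · simp
        rw [Finset.sum_congr rfl fun q _ => h6 q, Finset.sum_add_distrib]
        simp
      · intro a ha
        rw [if_neg]
        rintro ⟨h3, _⟩
        rw [hcc] at h3
        omega
    rw [e1, Finset.sum_congr rfl fun p _ => e2 p, ← Finset.sum_div, Finset.sum_add_distrib]
    simp only [Finset.sum_const, Finset.card_univ, smul_eq_mul, nsmul_eq_mul, mul_one]
    rw [← hK]
    have : (K : ℝ) ≠ 0 := by positivity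
    field_simp
    ring
  · intro a ha
    apply Finset.sum_eq_zero
    intro b _
    rw [if_neg]
    rintro ⟨_, h3⟩
    omega

end layered

/-- transfer to `Fin n` -/
lemma numDer_congr {V W : Type*} (e : V ≃ W) (E : V → V → Prop) :
    numDer (fun x y : W => E (e.symm x) (e.symm y)) = numDer E := by
  unfold numDer
  refine Nat.card_congr (Equiv.subtypeEquiv e.permCongr.symm ?_)
  intro σ
  constructor
  · intro h v
    have := h (e v)
    simpa [Equiv.permCongr] using this
  · intro h v
    have := h (e.symm v)
    simpa [Equiv.permCongr] using this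

lemma numPerm_congr {V W : Type*} (e : V ≃ W) (E : V → V → Prop) :
    numPerm (fun x y : W => E (e.symm x) (e.symm y)) = numPerm E := by
  unfold numPerm
  refine Nat.card_congr (Equiv.subtypeEquiv e.permCongr.symm ?_)
  intro σ
  constructor
  · intro h v
    rcases h (e v) with h | h
    · left
      simpa [Equiv.permCongr, Equiv.symm_apply_eq] using h
    · right
      simpa [Equiv.permCongr] using h
  · intro h v
    rcases h (e.symm v) with h | h
    · left
      simpa [Equiv.permCongr, Equiv.symm_apply_eq] using h
    · right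
      simpa [Equiv.permCongr] using h

/-- **The ratios `d(G)/p(G)` are dense in `[0, 1/2]`.** -/
theorem result (a b : ℝ) (ha : 0 ≤ a) (hab : a < b) (hb : b ≤ 1 / 2) :
    ∃ (n : ℕ) (E : Fin n → Fin n → Prop), 0 < n ∧ (∀ v, ¬ E v v) ∧
      a < (numDer E : ℝ) / numPerm E ∧ (numDer E : ℝ) / numPerm E < b := by
  classical
  -- choose `c` in `(a, b)`, positive
  obtain ⟨c, hc1, hc2⟩ := exists_between hab
  have hcpos : 0 < c := lt_of_le_of_lt ha hc1
  -- `t = 1/c - 2 > 0`
  have ht : 0 < 1 / c - 2 := by
    rw [sub_pos, lt_div_iff₀ hcpos]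
    linarith
  set t := 1 / c - 2 with htdef
  -- continuity of `s ↦ 1 / (2 + s)` at `t`
  have hcont : Tendsto (fun s : ℝ => 1 / (2 + s)) (𝓝 t) (𝓝 (1 / (2 + t))) := by
    apply Tendsto.div tendsto_const_nhds (tendsto_const_nhds.add tendsto_id)
    linarith
  have hval : 1 / (2 + t) = c := by
    rw [htdef]
    field_simp
    ring
  -- the approximations `⌊2 k t⌋ / (2 k)` of `t`
  have happrox : Tendsto (fun k : ℕ => ((⌊(t / 1) * ((2 * k : ℕ) : ℝ)⌋₊ : ℕ) : ℝ) / ((2 * k : ℕ) : ℝ))
      atTop (𝓝 (t / 1)) := by
    have h1 := tendsto_nat_floor_mul_div_atTop (R := ℝ) (a := t / 1) (by positivity)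
    have h2 : Tendsto (fun k : ℕ => ((2 * k : ℕ) : ℝ)) atTop atTop := by
      apply tendsto_natCast_atTop_atTop.comp
      exact tendsto_id.const_mul_atTop' (by norm_num)
    exact h1.comp h2
  have h3 : Tendsto (fun k : ℕ => 1 / (2 + ((⌊(t / 1) * ((2 * k : ℕ) : ℝ)⌋₊ : ℕ) : ℝ) /
      ((2 * k : ℕ) : ℝ))) atTop (𝓝 c) := by
    rw [← hval]
    rw [div_one] at happrox
    have h0 := hcont.comp happrox
    rw [div_one]
    exact h0
  have h4 := h3.eventually (Ioo_mem_nhds hc1 hc2)
  have h5 : ∀ᶠ k : ℕ in atTop, 2 * t ≤ k := by
    exact tendsto_natCast_atTop_atTop.eventually_ge_atTop _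
  obtain ⟨k, hk1, hk2, hk3⟩ := (h4.and (h5.and (eventually_ge_atTop 1))).exists
  set m := ⌊(t / 1) * ((2 * k : ℕ) : ℝ)⌋₊ with hm
  have hmle : m ≤ Fintype.card (Fin k × Fin k) := by
    have h6 : (m : ℝ) ≤ (t / 1) * ((2 * k : ℕ) : ℝ) := Nat.floor_le (by positivity)
    have h7 : (m : ℝ) ≤ ((k * k : ℕ) : ℝ) := by
      push_cast at h6 ⊢
      nlinarith [show (0 : ℝ) ≤ k from Nat.cast_nonneg k]
    have h8 : m ≤ k * k := by exact_mod_cast h7
    simpa using h8
  obtain ⟨A, _, hA⟩ := Finset.exists_subset_card_eq
    (show m ≤ (Finset.univ : Finset (Fin k × Fin k)).card by simpa using hmle)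
  -- the relation `N`
  let X := Fin k ⊕ Fin k
  let N : X → X → Prop := fun x y => ∃ i j, x = Sum.inl i ∧ y = Sum.inr j ∧ (i, j) ∈ A
  have hN1 : ∀ x, ¬ N x x := by
    rintro x ⟨i, j, h1, h2, _⟩
    rw [h1] at h2
    exact absurd h2 (by simp)
  have hN2 : ∀ x y z, N x y → ¬ N y z := by
    rintro x y z ⟨i, j, h1, h2, _⟩ ⟨i', j', h1', h2', _⟩
    rw [h2] at h1'
    exact absurd h1' (by simp)
  have : Nonempty X := ⟨Sum.inl ⟨0, by omega⟩⟩
  have hcardX : Fintype.card X = 2 * k := by
    simp only [X, Fintype.card_sum, Fintype.card_fin]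
    ring
  have hNsum : (∑ p : X, ∑ q : X, if N p q then (1 : ℝ) else 0) = m := by
    have e1 : ∀ p q : Fin k, N (Sum.inl p) (Sum.inr q) ↔ (p, q) ∈ A := by
      intro p q
      constructor
      · rintro ⟨i, j, h1, h2, h3⟩
        have h1' := Sum.inl_injective h1
        have h2' := Sum.inr_injective h2
        rw [h1', h2']
        exact h3
      · intro h
        exact ⟨p, q, rfl, rfl, h⟩
    have e2 : ∀ p q : Fin k, ¬ N (Sum.inl p) (Sum.inl q) := by
      rintro p q ⟨i, j, h1, h2, h3⟩
      exact absurd h2 (by simp)
    have e3 : ∀ (p : Fin k) (q : X), ¬ N (Sum.inr p) q := by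
      rintro p q ⟨i, j, h1, h2, h3⟩
      exact absurd h1 (by simp)
    have e4 : ∀ p : Fin k, (∑ q : X, if N (Sum.inl p) q then (1 : ℝ) else 0) =
        ∑ q : Fin k, if (p, q) ∈ A then (1 : ℝ) else 0 := by
      intro p
      rw [Fintype.sum_sum_type]
      rw [Finset.sum_eq_zero (fun q _ => if_neg (e2 p q)), zero_add]
      refine Finset.sum_congr rfl fun q _ => ?_
      simp only [e1]
    have e5 : ∀ p : Fin k, (∑ q : X, if N (Sum.inr p) q then (1 : ℝ) else 0) = 0 := by
      intro p
      exact Finset.sum_eq_zero (fun q _ => if_neg (e3 p q))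
    rw [Fintype.sum_sum_type, Finset.sum_congr rfl fun p _ => e4 p,
      Finset.sum_congr rfl fun p _ => e5 p, Finset.sum_const_zero, add_zero]
    rw [← hA, ← Fintype.sum_prod_type' (f := fun p q => if (p, q) ∈ A then (1 : ℝ) else 0)]
    simp
  -- the limit over the number of layers
  have hlim := tendsto_ratio (X := X) (withId N) (mm_withId_univ N hN1 hN2)
  rw [limit_value N hN1 hN2, hNsum, hcardX] at hlim
  have hinv := (hlim.inv₀ (by positivity)).eventually
    (Ioo_mem_nhds (show a < (2 + (m : ℝ) / ((2 * k : ℕ) : ℝ))⁻¹ by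
        simpa [one_div] using hk1.1)
      (show (2 + (m : ℝ) / ((2 * k : ℕ) : ℝ))⁻¹ < b by simpa [one_div] using hk1.2))
  obtain ⟨L, hL⟩ := hinv.exists
  rw [inv_div] at hL
  let e := Fintype.equivFin (Fin (L + 1 + 1) × X)
  refine ⟨Fintype.card (Fin (L + 1 + 1) × X),
    fun x y => layer (L + 1) (lay (L + 1) (withId N)) (e.symm x) (e.symm y),
    Fintype.card_pos, ?_, ?_⟩
  · rintro v ⟨h, _⟩
    have h1 : (1 : Fin (L + 1 + 1)) = 0 := by
      have := congrArg (fun z => z - (e.symm v).1) h
      simpa using this.symm
    have h2 : ((1 : Fin (L + 1 + 1)) : ℕ) = 0 := by rw [h1]; rfl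
    rw [Fin.val_one'] at h2
    rw [Nat.mod_eq_of_lt (by omega)] at h2
    omega
  · rw [numDer_congr e, numPerm_congr e]
    exact hL

end Pool.Agent.Results.MP_864c98_co.RatioDense
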